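import Pool.Agent.Q198.WM.TaskExist
import Pool.Agent.Q198.WM.TaskLaw
import Pool.Agent.Q198.WM.TaskInt
import Pool.Agent.Q198.WM.TaskSumNorm
import Pool.Agent.Q198.WM.TaskComp
import Pool.Agent.Q198.WM.TaskExt
import Pool.Agent.Q198.WM.TaskHold
import Pool.Agent.Q198.WM.TaskPolar
import Pool.Agent.Q198.WM.TaskIBP
import Pool.Agent.Q198.WM.TaskMom
import Pool.Agent.Q198.WM.TaskMomStrict
import Pool.Agent.Q198.WM.TaskPtLow
import Pool.Agent.Q198.WM.TaskPtUp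
import Pool.Agent.Q198.WM.TaskExpLow
import Pool.Agent.Q198.WM.TaskExpUp
import Pool.Agent.Q198.WM.TaskCalc
import Pool.Agent.Q198.WM.TaskTest
import Pool.Agent.Q198.WM.TaskBig
import Pool.Agent.Q198.WM.TaskLip
import Pool.Agent.Q198.WM.TaskMono
import Pool.Agent.Q198.WM.TaskVal
import Pool.Agent.Q198.WM.TaskA1
import Pool.Agent.Q198.WM.TaskA2
import Pool.Agent.Q198.WM.TaskA3
import Pool.Agent.Q198.WM.TaskA4
import Pool.Agent.Q198.WM.TaskA5
import Pool.Agent.Q198.WM.TaskA6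
import Pool.Agent.Q198.WM.TaskFunc
import Pool.Agent.Q198.WM.TaskFuncBd
import Pool.Agent.Q198.WM.TaskNormLp
import Pool.Agent.Q198.WM.TaskC1
import Pool.Agent.Q198.WM.TaskC2
import Pool.Agent.Q198.WM.TaskC3
import Pool.Agent.Q198.WM.TaskC4
import Pool.Agent.Q198.WM.TaskC5
import Pool.Agent.Q198.WM.TaskC6
import Pool.Agent.Q198.WM.TaskC7
import Pool.Agent.Q198.WM.TaskD1
import Pool.Agent.Q198.WM.TaskD2
import Pool.Agent.Q198.WM.TaskD3
import Pool.Agent.Q198.WM.TaskM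
import Pool.Agent.Q198.WM.AsmCpx
import Pool.Agent.Q198.WM.AsmReal

set_option autoImplicit false

/-!
# The weak maximizing property fails for `(L_p, L_q)`, `1 < p ≤ 2 ≤ q < ∞`, `(p, q) ≠ (2, 2)`

The operator is `T f = ∫ f + ∑ μ_n (∫ f g_n) g_n` with independent standard Gaussian variables `g_n`
on `[0,1]` and `μ_n ↑ m`, where `(p-1)/(q-1) < m²` and `m ‖g‖_q ‖g‖_{p'} ≤ 1`. The 41 lemmas
`TaskX` of the plan in `Pool/Agent/Q198/WM/Stmts.lean` were proved by members of our team.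
-/

namespace Pool.Agent.Results.MP_30e1ee_an.GaussianMultiplier

open MeasureTheory Filter Topology Pool.Agent.Q198.WM

/-- The sequence `x` converges weakly to zero. -/
def WeaklyNull (𝕜 : Type) {X : Type} [RCLike 𝕜] [NormedAddCommGroup X] [NormedSpace 𝕜 X]
    (x : ℕ → X) : Prop :=
  ∀ φ : X →L[𝕜] 𝕜, Tendsto (fun n => φ (x n)) atTop (𝓝 0)

/-- The pair `(X, Y)` has the weak maximizing property: every bounded linear `T : X → Y` with a
maximizing sequence of norm-one vectors that is not weakly null attains its norm. -/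
def WMP (𝕜 X Y : Type) [RCLike 𝕜] [NormedAddCommGroup X] [NormedSpace 𝕜 X]
    [NormedAddCommGroup Y] [NormedSpace 𝕜 Y] : Prop :=
  ∀ T : X →L[𝕜] Y,
    (∃ x : ℕ → X, (∀ n, ‖x n‖ = 1) ∧ Tendsto (fun n => ‖T (x n)‖) atTop (𝓝 ‖T‖) ∧
      ¬ WeaklyNull 𝕜 x) →
    ∃ x₀ : X, ‖x₀‖ = 1 ∧ ‖T x₀‖ = ‖T‖

/-- The Lebesgue space `L_r[0,1]` over `𝕜`. -/
abbrev LL (𝕜 : Type) [RCLike 𝕜] (r : ℝ) : Type :=
  Lp 𝕜 (ENNReal.ofReal r) (volume : Measure unitInterval)

lemma not_wmp {𝕜 X Y : Type} [RCLike 𝕜] [NormedAddCommGroup X] [NormedSpace 𝕜 X]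
    [NormedAddCommGroup Y] [NormedSpace 𝕜 Y] (T : X →L[𝕜] Y) (hT : Bad T) : ¬ WMP 𝕜 X Y := by
  intro h
  obtain ⟨h1, x, h2, h3, h4⟩ := hT
  obtain ⟨x0, h5, h6⟩ := h T ⟨x, h2, h3, h4⟩
  exact h1 x0 h5 h6

/-- **The weak maximizing property fails for all pairs `(L_p, L_q)` with `1 < p ≤ 2 ≤ q < ∞` and
`(p, q) ≠ (2, 2)`, for real and for complex scalars.** -/
theorem result (p q : ℝ) (hp : 1 < p) (hp2 : p ≤ 2) (hq : 2 ≤ q) (hne : (p, q) ≠ (2, 2))
    [Fact (1 ≤ ENNReal.ofReal p)] [Fact (1 ≤ ENNReal.ofReal q)] :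
    ¬ WMP ℝ (LL ℝ p) (LL ℝ q) ∧ ¬ WMP ℂ (LL ℂ p) (LL ℂ q) := by
  have hne' : ¬ (p = 2 ∧ q = 2) := fun h => hne (by rw [h.1, h.2])
  obtain ⟨T, hT⟩ := real_bad TaskExist.main TaskLaw.main TaskInt.main TaskSumNorm.main TaskComp.main TaskExt.main TaskHold.main TaskPolar.main TaskIBP.main TaskMom.main TaskMomStrict.main TaskPtLow.main TaskPtUp.main TaskExpLow.main TaskExpUp.main TaskCalc.main TaskTest.main TaskBig.main TaskLip.main TaskMono.main TaskVal.main TaskA1.main TaskA2.main TaskA3.main TaskA4.main TaskA5.main TaskA6.main TaskFunc.main TaskFuncBd.main TaskNormLp.main TaskD1.main TaskD2.main TaskD3.main TaskM.main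
    p q hp hp2 hq hne'
  obtain ⟨S, hS⟩ := cpx_bad TaskC1.main TaskC2.main TaskC3.main TaskC4.main TaskC5.main TaskC6.main TaskC7.main p q hp
    (hp2.trans hq) T hT
  exact ⟨not_wmp T hT, not_wmp S hS⟩

end Pool.Agent.Results.MP_30e1ee_an.GaussianMultiplier
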